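import Pool.Agent.R109.GT.DD
import Pool.Agent.R109.GT.F

/-! # MP_cc494f_an, Q2: for the Gray Takagi function almost every level set is finite. -/

open MeasureTheory Set Filter Topology

namespace Pool.Agent.Results.MP_cc494f_an.GrayTakagiLevelSets

/-- The Gray Takagi function: `f(x) = ∑_{n ≥ 0} 2^{-n} r_n(x) φ(2^n x)`, where
`r_n(x) = (-1)^⌊2^n x⌋` is the `n`-th Rademacher function and
`φ(u) = |u - round u|` is the distance from `u` to the nearest integer. -/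
noncomputable def grayTakagi (x : ℝ) : ℝ :=
  ∑' n : ℕ, ((2:ℝ) ^ n)⁻¹ * (-1 : ℝ) ^ ⌊(2:ℝ) ^ n * x⌋ * |(2:ℝ) ^ n * x - round ((2:ℝ) ^ n * x)|

theorem gw_cast (n : ℕ) (j : ℤ) : ((R109.GT.gw n j : ℤ) : ℝ) = (-1 : ℝ) ^ j := by
  unfold R109.GT.gw
  rcases Int.even_or_odd j with h | h
  · rw [if_pos (Int.even_iff.mp h), h.neg_one_zpow]; simp
  · rw [if_neg (by rw [Int.odd_iff.mp h]; norm_num), h.neg_one_zpow]; simp

theorem gray_eq (x : ℝ) : grayTakagi x = R109.GT.tak R109.GT.gw x := by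
  unfold grayTakagi R109.GT.tak
  apply tsum_congr
  intro n
  rw [gw_cast, R109.GT.phi]
  field_simp

/-- For Lebesgue-almost every `y`, the level set `{x ∈ [0,1] : f(x) = y}` of the Gray Takagi
function `f` is finite. -/
theorem result : ∀ᵐ y ∂(volume : Measure ℝ), {x : ℝ | x ∈ Icc (0:ℝ) 1 ∧ grayTakagi x = y}.Finite := by
  have h := R109.GT.ae_finite R109.GT.gw R109.GT.gw_sgn R109.GT.null_gray
  filter_upwards [h] with y hy
  have : {x : ℝ | x ∈ Icc (0:ℝ) 1 ∧ grayTakagi x = y} =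
      {x : ℝ | x ∈ Icc (0:ℝ) 1 ∧ R109.GT.tak R109.GT.gw x = y} := by
    ext x
    rw [mem_ofPred_eq, mem_ofPred_eq, gray_eq]
  rw [this]
  exact hy

end Pool.Agent.Results.MP_cc494f_an.GrayTakagiLevelSets
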